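import Pool.Agent.CTypes.Main

/-!
There are two complexity types, neither contained in `P`, whose partial orders of polynomial time
Turing degrees are not isomorphic: the first has a greatest element and the second has none.

The time bounds: `T` is any set of functions `f` with `f n ≥ n` which contains all exactly
time-constructible ones; for the uniform cost criterion it is enough that `T` contains those
exactly time-constructible `f ≥ n` whose value can moreover be computed in time `O(f n)`.
-/

namespace Pool.Agent.Results.MP_c93e4a_lc.NotIsomorphic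

open Pool.Agent.CTypes

theorem result (κ : Criterion) (T : Set (ℕ → ℕ)) (hT : ∀ f ∈ T, ∀ n, n ≤ f n)
    (hT' : ∀ f : ℕ → ℕ, (∀ n, n ≤ f n) → ExactlyConstructible κ f →
      (κ = Criterion.uniform → ValueConstructible κ f) → f ∈ T) :
    ∃ C C' : Set (Set Str), IsComplexityType κ T C ∧ IsComplexityType κ T C' ∧
      ¬ C ⊆ PTIME κ ∧ ¬ C' ⊆ PTIME κ ∧
      (∃ d ∈ Dp κ C, ∀ e ∈ Dp κ C, DegLe κ e d) ∧
      (¬ ∃ d ∈ Dp κ C', ∀ e ∈ Dp κ C', DegLe κ e d) ∧ ¬ DpIso κ C C' := by
  obtain ⟨C, C', h1, h2, h3, h4, h5, h6⟩ := main κ T hT hT'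
  exact ⟨C, C', h1, h2, h3, h4, h5, h6, not_iso h5 h6⟩

end Pool.Agent.Results.MP_c93e4a_lc.NotIsomorphic
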